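import Mathlib

/-! # The cycle number of a graph and of an induced subgraph -/

set_option autoImplicit false

namespace Pool.Agent.CPF

open Finset

theorem two_edges {V : Type} [Fintype V] [DecidableEq V] (H : SimpleGraph V) [DecidableRel H.Adj] :
    (2 * (Nat.card H.edgeSet : ℤ)) = ∑ v : V, ∑ w : V, if H.Adj v w then (1 : ℤ) else 0 := by
  have h1 := H.sum_degrees_eq_twice_card_edges
  rw [Nat.card_eq_fintype_card, ← SimpleGraph.edgeFinset_card]
  have h2 : (2 * (#H.edgeFinset : ℤ)) = ((∑ v, H.degree v : ℕ) : ℤ) := by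
    rw [h1]
    push_cast
    ring
  rw [h2]
  push_cast
  refine Finset.sum_congr rfl fun v _ => ?_
  rw [← SimpleGraph.card_neighborFinset_eq_degree, SimpleGraph.neighborFinset_eq_filter,
    Finset.card_filter]
  push_cast
  rfl

theorem deg_sum {V : Type} [Fintype V] [DecidableEq V] (H : SimpleGraph V) [DecidableRel H.Adj]
    (v : V) : (((H.neighborSet v).ncard : ℕ) : ℤ) = ∑ w : V, if H.Adj v w then (1 : ℤ) else 0 := by
  rw [Set.ncard_eq_toFinset_card']
  have h1 : (H.neighborSet v).toFinset = Finset.univ.filter fun w => H.Adj v w := by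
    ext w
    simp
  rw [h1, Finset.card_filter]
  push_cast
  rfl

/-- the cycle number grows by the degrees outside and by the edges to the outside -/
theorem beta {V : Type} [Fintype V] (H : SimpleGraph V) (C : Set V) (P : Finset V)
    (hP : ∀ v ∈ P, v ∉ C) (hmin : ∀ v, v ∉ C → 2 ≤ (H.neighborSet v).ncard) :
    (∑ v ∈ P, (((H.neighborSet v).ncard : ℤ) - 2)) +
        (({q : V × V | q.1 ∈ C ∧ q.2 ∉ C ∧ H.Adj q.1 q.2}.ncard : ℕ) : ℤ) ≤
      2 * (((Nat.card H.edgeSet : ℤ) - Nat.card V) -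
        ((Nat.card (H.induce C).edgeSet : ℤ) - Nat.card C)) := by
  classical
  have hE := two_edges H
  have hEC := two_edges (H.induce C)
  have hn : (Nat.card V : ℤ) = ∑ v : V, (1 : ℤ) := by
    rw [Nat.card_eq_fintype_card]
    simp
  have hnC : (Nat.card C : ℤ) = ∑ v : V, if v ∈ C then (1 : ℤ) else 0 := by
    rw [Nat.card_eq_fintype_card, Fintype.card_subtype, Finset.card_filter]
    push_cast
    rfl
  have hC : ∀ g : V → ℤ, ∑ v : C, g v = ∑ v : V, if v ∈ C then g v else 0 := by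
    intro g
    rw [← Finset.sum_filter, Finset.sum_subtype (Finset.univ.filter fun v => v ∈ C)
      (p := fun v => v ∈ C) (fun v => by simp)]
  have hEC2 : (2 * (Nat.card (H.induce C).edgeSet : ℤ)) =
      ∑ v : V, ∑ w : V, if (v ∈ C ∧ w ∈ C ∧ H.Adj v w) then (1 : ℤ) else 0 := by
    rw [hEC]
    have h1 : ∀ v : C, (∑ w : C, if (H.induce C).Adj v w then (1 : ℤ) else 0) =
        ∑ w : V, if w ∈ C then (if H.Adj v w then (1 : ℤ) else 0) else 0 := by
      intro v
      rw [← hC fun w => if H.Adj v w then (1 : ℤ) else 0]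
      refine Finset.sum_congr rfl fun w _ => ?_
      rfl
    rw [Finset.sum_congr rfl fun v _ => h1 v,
      hC fun v => ∑ w : V, if w ∈ C then (if H.Adj v w then (1 : ℤ) else 0) else 0]
    refine Finset.sum_congr rfl fun v _ => ?_
    by_cases hv : v ∈ C
    · rw [if_pos hv]
      refine Finset.sum_congr rfl fun w _ => ?_
      by_cases hw : w ∈ C <;> by_cases ha : H.Adj v w <;> simp [hv, hw, ha]
    · rw [if_neg hv]
      simp [hv]
  have hpairs : (({q : V × V | q.1 ∈ C ∧ q.2 ∉ C ∧ H.Adj q.1 q.2}.ncard : ℕ) : ℤ) =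
      ∑ v : V, ∑ w : V, if (v ∈ C ∧ w ∉ C ∧ H.Adj v w) then (1 : ℤ) else 0 := by
    rw [Set.ncard_eq_toFinset_card']
    have h1 : {q : V × V | q.1 ∈ C ∧ q.2 ∉ C ∧ H.Adj q.1 q.2}.toFinset =
        (Finset.univ : Finset (V × V)).filter fun q => q.1 ∈ C ∧ q.2 ∉ C ∧ H.Adj q.1 q.2 := by
      ext q
      simp
    rw [h1, Finset.card_filter, ← Finset.univ_product_univ, Finset.sum_product]
    push_cast
    rfl
  have hmain : 2 * (((Nat.card H.edgeSet : ℤ) - Nat.card V) -
      ((Nat.card (H.induce C).edgeSet : ℤ) - Nat.card C)) -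
      (({q : V × V | q.1 ∈ C ∧ q.2 ∉ C ∧ H.Adj q.1 q.2}.ncard : ℕ) : ℤ) =
        ∑ v : V, if v ∉ C then (((H.neighborSet v).ncard : ℤ) - 2) else 0 := by
    have h1 : 2 * (((Nat.card H.edgeSet : ℤ) - Nat.card V) -
        ((Nat.card (H.induce C).edgeSet : ℤ) - Nat.card C)) -
        (({q : V × V | q.1 ∈ C ∧ q.2 ∉ C ∧ H.Adj q.1 q.2}.ncard : ℕ) : ℤ) =
        2 * (Nat.card H.edgeSet : ℤ) - 2 * (Nat.card V : ℤ) -
          2 * (Nat.card (H.induce C).edgeSet : ℤ) + 2 * (Nat.card C : ℤ) -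
            (({q : V × V | q.1 ∈ C ∧ q.2 ∉ C ∧ H.Adj q.1 q.2}.ncard : ℕ) : ℤ) := by ring
    rw [h1, hE, hEC2, hpairs, hn, hnC, Finset.mul_sum, Finset.mul_sum, ← Finset.sum_sub_distrib,
      ← Finset.sum_sub_distrib, ← Finset.sum_add_distrib, ← Finset.sum_sub_distrib]
    refine Finset.sum_congr rfl fun v _ => ?_
    by_cases hv : v ∈ C
    · rw [if_pos hv, if_neg (by simpa using hv)]
      have h2 : (∑ w : V, if H.Adj v w then (1 : ℤ) else 0) =
          (∑ w : V, if (v ∈ C ∧ w ∈ C ∧ H.Adj v w) then (1 : ℤ) else 0) +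
            ∑ w : V, if (v ∈ C ∧ w ∉ C ∧ H.Adj v w) then (1 : ℤ) else 0 := by
        rw [← Finset.sum_add_distrib]
        refine Finset.sum_congr rfl fun w _ => ?_
        by_cases hw : w ∈ C <;> by_cases ha : H.Adj v w <;> simp [hv, hw, ha]
      rw [h2]
      ring
    · rw [if_neg hv, if_pos hv, deg_sum H v]
      have h2 : (∑ w : V, if (v ∈ C ∧ w ∈ C ∧ H.Adj v w) then (1 : ℤ) else 0) = 0 :=
        Finset.sum_eq_zero fun w _ => by simp [hv]
      have h3 : (∑ w : V, if (v ∈ C ∧ w ∉ C ∧ H.Adj v w) then (1 : ℤ) else 0) = 0 :=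
        Finset.sum_eq_zero fun w _ => by simp [hv]
      rw [h2, h3]
      ring
  have hle : (∑ v ∈ P, (((H.neighborSet v).ncard : ℤ) - 2)) ≤
      ∑ v : V, if v ∉ C then (((H.neighborSet v).ncard : ℤ) - 2) else 0 := by
    have h1 : (∑ v ∈ P, (((H.neighborSet v).ncard : ℤ) - 2)) =
        ∑ v ∈ P, if v ∉ C then (((H.neighborSet v).ncard : ℤ) - 2) else 0 :=
      Finset.sum_congr rfl fun v hv => by rw [if_pos (hP v hv)]
    rw [h1]
    refine Finset.sum_le_sum_of_subset_of_nonneg (Finset.subset_univ _) fun v _ _ => ?_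
    by_cases hv : v ∈ C
    · rw [if_neg (by simpa using hv)]
    · rw [if_pos hv]
      have := hmin v hv
      omega
  linarith

end Pool.Agent.CPF
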