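import Pool.Agent.CPF.BetaF

/-! # Degrees inside a set of vertices, continued -/

set_option autoImplicit false

namespace Pool.Agent.CPF

open Classical

variable {V : Type} [Fintype V] (G : SimpleGraph V)

/-- the degree in the induced graph -/
theorem dg_eq (C : Finset V) (v : V) (hv : v ∈ C) :
    ((G.induce (C : Set V)).neighborSet ⟨v, hv⟩).ncard = dg G C v := by
  unfold dg
  rw [← Set.ncard_coe_finset (C.filter (G.Adj v))]
  rw [← Set.ncard_image_of_injective _ (Subtype.val_injective (p := fun v => v ∈ (C : Set V)))]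
  congr 1
  ext w
  constructor
  · rintro ⟨⟨u, hu⟩, hadj, rfl⟩
    rw [Finset.mem_coe, Finset.mem_filter]
    exact ⟨hu, hadj⟩
  · intro hw
    rw [Finset.mem_coe, Finset.mem_filter] at hw
    exact ⟨⟨w, hw.1⟩, hw.2, rfl⟩

theorem D_split (C C' : Finset V) (h1 : C' ⊆ C) :
    D G C = D G C' + ∑ v ∈ C \ C', dg G C v + ∑ a ∈ C', ((C \ C').filter (G.Adj a)).card := by
  have h2 : D G C = ∑ a ∈ C \ C', dg G C a + ∑ a ∈ C', dg G C a := by
    unfold D
    exact (Finset.sum_sdiff h1).symm
  have h3 : ∑ a ∈ C', dg G C a = D G C' + ∑ a ∈ C', ((C \ C').filter (G.Adj a)).card := by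
    unfold D
    rw [← Finset.sum_add_distrib]
    exact Finset.sum_congr rfl fun a _ => dg_split G C C' h1 a
  rw [h2, h3]
  ring

theorem tree_le_nat (C : Finset V) (hC : (G.induce (C : Set V)).Connected) :
    2 * C.card ≤ D G C + 2 := by
  have h1 := tree_le G C hC
  exact_mod_cast h1

end Pool.Agent.CPF
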