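import Pool.Agent.CPF.Beta

/-! # Degrees inside a set of vertices -/

set_option autoImplicit false

namespace Pool.Agent.CPF

open Classical

variable {V : Type} [Fintype V] (G : SimpleGraph V)

/-- the number of neighbours of `v` in `C` -/
noncomputable def dg (C : Finset V) (v : V) : ℕ := (C.filter (G.Adj v)).card

/-- the sum of the degrees inside `C` -/
noncomputable def D (C : Finset V) : ℕ := ∑ a ∈ C, dg G C a

theorem D_eq (C : Finset V) : D G C = 2 * Nat.card (G.induce (C : Set V)).edgeSet := by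
  have h1 := two_edges (G.induce (C : Set V))
  have h2 : ((D G C : ℕ) : ℤ) = 2 * (Nat.card (G.induce (C : Set V)).edgeSet : ℤ) := by
    rw [h1]
    have h3 : ∀ g : V → ℤ, ∑ v : (C : Set V), g v = ∑ v ∈ C, g v := fun g =>
      Finset.sum_coe_sort C g
    have h4 : ∀ v : (C : Set V), (∑ w : (C : Set V),
        if (G.induce (C : Set V)).Adj v w then (1 : ℤ) else 0) =
          ∑ w ∈ C, if G.Adj v w then (1 : ℤ) else 0 := by
      intro v
      rw [← h3 fun w => if G.Adj v w then (1 : ℤ) else 0]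
      refine Finset.sum_congr rfl fun w _ => ?_
      rfl
    rw [Finset.sum_congr rfl fun v _ => h4 v, h3 fun v => ∑ w ∈ C, if G.Adj v w then (1 : ℤ) else 0]
    unfold D dg
    push_cast
    refine Finset.sum_congr rfl fun v _ => ?_
    rw [Finset.card_filter]
    push_cast
    rfl
  exact_mod_cast h2

theorem D_univ : D G Finset.univ = 2 * Nat.card G.edgeSet := by
  have h1 := two_edges G
  have h2 : ((D G Finset.univ : ℕ) : ℤ) = 2 * (Nat.card G.edgeSet : ℤ) := by
    rw [h1]
    unfold D dg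
    push_cast
    refine Finset.sum_congr rfl fun v _ => ?_
    rw [Finset.card_filter]
    push_cast
    rfl
  exact_mod_cast h2

theorem dg_split (C C' : Finset V) (h1 : C' ⊆ C) (a : V) :
    dg G C a = dg G C' a + ((C \ C').filter (G.Adj a)).card := by
  unfold dg
  rw [← Finset.card_union_of_disjoint, ← Finset.filter_union, Finset.union_sdiff_of_subset h1]
  exact Finset.disjoint_filter_filter Finset.disjoint_sdiff

theorem drop (C C' P : Finset V) (h1 : C' ⊆ C) (h2 : P ⊆ C \ C')
    (hmin : ∀ v ∈ C \ C', 2 ≤ dg G C v) :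
    ∑ v ∈ P, ((dg G C v : ℤ) - 2) + ∑ a ∈ C', (((C \ C').filter (G.Adj a)).card : ℤ) ≤
      ((D G C : ℤ) - 2 * C.card) - ((D G C' : ℤ) - 2 * C'.card) := by
  have hD : (D G C : ℤ) = ∑ a ∈ C \ C', (dg G C a : ℤ) + ∑ a ∈ C', (dg G C a : ℤ) := by
    unfold D
    push_cast
    exact (Finset.sum_sdiff h1).symm
  have hc : (C.card : ℤ) = (C \ C').card + C'.card := by
    rw [← Nat.cast_add, Finset.card_sdiff_add_card_eq_card h1]
  have hD2 : ∑ a ∈ C', (dg G C a : ℤ) = (D G C' : ℤ) +
      ∑ a ∈ C', (((C \ C').filter (G.Adj a)).card : ℤ) := by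
    unfold D
    push_cast
    rw [← Finset.sum_add_distrib]
    refine Finset.sum_congr rfl fun a _ => ?_
    rw [dg_split G C C' h1 a]
    push_cast
    rfl
  have hs : ∑ a ∈ C \ C', ((dg G C a : ℤ) - 2) = ∑ a ∈ C \ C', (dg G C a : ℤ) -
      2 * (C \ C').card := by
    rw [Finset.sum_sub_distrib, Finset.sum_const, nsmul_eq_mul]
    ring
  have hle : ∑ v ∈ P, ((dg G C v : ℤ) - 2) ≤ ∑ a ∈ C \ C', ((dg G C a : ℤ) - 2) := by
    refine Finset.sum_le_sum_of_subset_of_nonneg h2 fun v hv _ => ?_
    have := hmin v hv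
    omega
  rw [hD, hD2, hc]
  linarith

theorem tree_le (C : Finset V) (hC : (G.induce (C : Set V)).Connected) :
    2 * (C.card : ℤ) ≤ D G C + 2 := by
  have h1 := hC.card_vert_le_card_edgeSet_add_one
  have h2 : Nat.card (C : Set V) = C.card := by
    rw [Nat.card_eq_fintype_card]
    exact Fintype.card_coe C
  rw [h2] at h1
  rw [D_eq G C]
  push_cast
  have h3 : (C.card : ℤ) ≤ (Nat.card (G.induce (C : Set V)).edgeSet : ℤ) + 1 := by
    exact_mod_cast h1
  linarith

end Pool.Agent.CPF
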