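import Pool.Agent.CPF.Tree
import Pool.Agent.CPF.Beta

/-!
# A geodesic with many edges leaving it
-/

set_option autoImplicit false

namespace Pool.Agent.CPF

/-- On a sequence `q` which goes from `x` to `v` in `dist x v` steps, `q i` is at distance `i`. -/
theorem geo_dist' {W : Type*} {H : SimpleGraph W} (hH : H.Connected) {x v : W} {q : ℕ → W}
    (h0 : q 0 = x) (h1 : ∀ i < H.dist x v, H.Adj (q i) (q (i + 1))) (h2 : q (H.dist x v) = v) :
    ∀ i ≤ H.dist x v, H.dist x (q i) = i := by
  have hle : ∀ i ≤ H.dist x v, H.dist x (q i) ≤ i := by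
    intro i
    induction i with
    | zero => intro _; rw [h0, SimpleGraph.dist_self]
    | succ i ih =>
      intro hi
      have h3 := ih (by omega)
      have h4 := hH.dist_triangle (u := x) (v := q i) (w := q (i + 1))
      have h5 : H.dist (q i) (q (i + 1)) = 1 := SimpleGraph.dist_eq_one_iff_adj.2 (h1 i (by omega))
      omega
  have hge : ∀ j ≤ H.dist x v, H.dist (q (H.dist x v - j)) v ≤ j := by
    intro j
    induction j with
    | zero => intro _; rw [Nat.sub_zero, h2, SimpleGraph.dist_self]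
    | succ j ih =>
      intro hj
      have h3 := ih (by omega)
      have h4 := hH.dist_triangle (u := q (H.dist x v - (j + 1))) (v := q (H.dist x v - j)) (w := v)
      have h5 : H.dist (q (H.dist x v - (j + 1))) (q (H.dist x v - j)) = 1 := by
        have := h1 (H.dist x v - (j + 1)) (by omega)
        rw [show H.dist x v - (j + 1) + 1 = H.dist x v - j by omega] at this
        exact SimpleGraph.dist_eq_one_iff_adj.2 this
      omega
  intro i hi
  have h3 := hle i hi
  have h4 := hge (H.dist x v - i) (by omega)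
  rw [show H.dist x v - (H.dist x v - i) = i by omega] at h4
  have h5 := hH.dist_triangle (u := x) (v := q i) (w := v)
  omega

/-- Let `H` be connected with all degrees at least two and `E - V > (2 K) ^ (2 K)`. Then some
geodesic has `∑ (deg - 2) ≥ 2 K - 1`. -/
theorem exists_geo {V : Type} [Fintype V] (H : SimpleGraph V) (hc : H.Connected) (K : ℕ)
    (hK : 2 ≤ K) (hmin : ∀ v, 2 ≤ (H.neighborSet v).ncard)
    (hbig : ((2 * K : ℕ) ^ (2 * K) : ℤ) < (Nat.card H.edgeSet : ℤ) - Nat.card V) :
    ∃ (L : ℕ) (q : ℕ → V), (∀ i < L, H.Adj (q i) (q (i + 1))) ∧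
      (∀ i ≤ L, H.dist (q 0) (q i) = i) ∧
      (2 * K - 1 : ℤ) ≤ ∑ i ∈ Finset.range (L + 1), (((H.neighborSet (q i)).ncard : ℤ) - 2) := by
  classical
  by_contra hcon
  push Not at hcon
  -- degrees
  have hdeg : ∀ v, (H.neighborSet v).ncard ≤ 2 * K := by
    intro v
    by_contra hv
    have h1 := hcon 0 (fun _ => v) (fun i hi => absurd hi (Nat.not_lt_zero _))
      (fun i hi => by
        obtain rfl : i = 0 := by omega
        exact SimpleGraph.dist_self)
    simp only [zero_add, Finset.sum_range_one] at h1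
    omega
  obtain ⟨x⟩ := hc.nonempty
  have hcount := branch_count (D := 2 * K) (m := 2 * K - 2) hc hdeg x (by
    intro v q h0 h1 h2
    by_contra hm
    have hd := geo_dist' hc h0 h1 h2
    have h3 := hcon (H.dist x v) q h1 (fun i hi => by rw [h0]; exact hd i hi)
    have h4 : (((Finset.range (H.dist x v + 1)).filter
        (fun i => 3 ≤ (H.neighborSet (q i)).ncard)).card : ℤ) ≤
        ∑ i ∈ Finset.range (H.dist x v + 1), (((H.neighborSet (q i)).ncard : ℤ) - 2) := by
      rw [Finset.card_filter]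
      push_cast
      refine Finset.sum_le_sum fun i _ => ?_
      have := hmin (q i)
      split_ifs with h5 <;> omega
    omega)
  -- the sum of the degrees
  have hsum : 2 * (Nat.card H.edgeSet : ℤ) = ∑ v : V, ((H.neighborSet v).ncard : ℤ) := by
    rw [two_edges H]
    exact Finset.sum_congr rfl fun v _ => (deg_sum H v).symm
  have hle : ∑ v : V, (((H.neighborSet v).ncard : ℤ) - 2) ≤
      ((2 * K - 2 : ℕ) : ℤ) * ({v | 3 ≤ (H.neighborSet v).ncard}.ncard : ℤ) := by
    rw [Set.ncard_eq_toFinset_card']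
    have h1 : ({v | 3 ≤ (H.neighborSet v).ncard} : Set V).toFinset =
        Finset.univ.filter fun v => 3 ≤ (H.neighborSet v).ncard := by
      ext v
      simp
    rw [h1, Finset.card_filter]
    push_cast
    rw [Finset.mul_sum]
    refine Finset.sum_le_sum fun v _ => ?_
    have h2 := hmin v
    have h3 := hdeg v
    split_ifs with h4 <;> push_cast [Nat.cast_sub (show 2 ≤ 2 * K by omega)] <;> omega
  rw [Finset.sum_sub_distrib, ← hsum] at hle
  simp only [Finset.sum_const, Finset.card_univ, nsmul_eq_mul] at hle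
  rw [← Nat.card_eq_fintype_card] at hle
  have h5 : (2 * K - 2) * (2 * (2 * K) ^ (2 * K - 2 + 1) + 1) ≤ 2 * (2 * K) ^ (2 * K) := by
    have h6 : (2 * K) ^ (2 * K) = (2 * K) ^ (2 * K - 2 + 1) * (2 * K) := by
      rw [← pow_succ]
      congr 1
      omega
    rw [h6]
    set N := (2 * K) ^ (2 * K - 2 + 1)
    have h7 : 2 * K ≤ N := Nat.le_self_pow (by omega) _
    obtain ⟨j, rfl⟩ : ∃ j, K = j + 2 := ⟨K - 2, by omega⟩
    have h8 : 2 * (j + 2) - 2 = 2 * j + 2 := by omega
    rw [h8]
    nlinarith
  have h9 : (2 * K - 2) * {v | 3 ≤ (H.neighborSet v).ncard}.ncard ≤ 2 * (2 * K) ^ (2 * K) :=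
    le_trans (Nat.mul_le_mul_left _ hcount) h5
  have h10 : (((2 * K - 2) * {v | 3 ≤ (H.neighborSet v).ncard}.ncard : ℕ) : ℤ) ≤
      ((2 * (2 * K) ^ (2 * K) : ℕ) : ℤ) := by exact_mod_cast h9
  push_cast at h10 hle hbig
  linarith

end Pool.Agent.CPF
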