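import Pool.Agent.CPF.Step
import Pool.Agent.CPF.Beta2
import Pool.Agent.CPF.Geo

set_option autoImplicit false

/-!
# Cops and robbers: `K c(G) ≤ |E| - |V| + (2K)^(2K+2)`
-/

namespace Pool.Agent.CPF

open Pool.Agent.COPG
open Classical

variable {V : Type} [Fintype V]

theorem nbr_eq (G : SimpleGraph V) (C : Finset V) (v : (C : Set V)) :
    ((G.induce (C : Set V)).neighborSet v).ncard = dg G C v :=
  dg_eq G C v.1 v.2

/-- twice the cyclomatic number of the territory -/
noncomputable def b2 (G : SimpleGraph V) (C : Finset V) : ℤ := (D G C : ℤ) - 2 * C.card + 2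

theorem b2_even (G : SimpleGraph V) (C : Finset V) : ∃ m : ℤ, b2 G C = 2 * m := by
  refine ⟨(Nat.card (G.induce (C : Set V)).edgeSet : ℤ) - C.card + 1, ?_⟩
  unfold b2
  rw [D_eq]
  push_cast
  ring

theorem b2_nonneg (G : SimpleGraph V) (C : Finset V) (hC : (G.induce (C : Set V)).Connected) :
    0 ≤ b2 G C := by
  have := tree_le G C hC
  unfold b2
  omega

/-- the drop of the cyclomatic number when a path is removed -/
theorem b2_drop (G : SimpleGraph V) (C C' : Finset V) (hsub : C' ⊆ C)
    (hmin : ∀ v ∈ C, 2 ≤ dg G C v) (he : ∃ a ∈ C', ∃ b ∈ C, b ∉ C' ∧ G.Adj a b)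
    (P : Finset V) (hP : P ⊆ C \ C') :
    b2 G C' + 1 + ∑ v ∈ P, ((dg G C v : ℤ) - 2) ≤ b2 G C := by
  have h1 := D_split G C C' hsub
  have h2 : ∑ v ∈ P, ((dg G C v : ℤ) - 2) ≤ ∑ v ∈ C \ C', ((dg G C v : ℤ) - 2) := by
    refine Finset.sum_le_sum_of_subset_of_nonneg hP fun v hv _ => ?_
    have := hmin v (Finset.mem_sdiff.1 hv).1
    omega
  have h3 : ∑ v ∈ C \ C', ((dg G C v : ℤ) - 2) =
      (∑ v ∈ C \ C', dg G C v : ℕ) - 2 * (C \ C').card := by
    rw [Finset.sum_sub_distrib]
    simp [mul_comm]
  have h4 : (C \ C').card + C'.card = C.card := Finset.card_sdiff_add_card_eq_card hsub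
  have h5 : 1 ≤ ∑ a ∈ C', ((C \ C').filter (G.Adj a)).card := by
    obtain ⟨a, ha, b, hb, hbC, hab⟩ := he
    calc 1 ≤ ((C \ C').filter (G.Adj a)).card := by
          refine Finset.card_pos.2 ⟨b, ?_⟩
          simp [hb, hbC, hab]
      _ ≤ _ := Finset.single_le_sum (f := fun a => ((C \ C').filter (G.Adj a)).card)
          (fun _ _ => Nat.zero_le _) ha
  unfold b2
  omega

/-- removing a leaf -/
theorem leaf_facts (G : SimpleGraph V) (C : Finset V) (hC : (G.induce (C : Set V)).Connected)
    (v : V) (hv : v ∈ C) (h2 : 2 ≤ C.card) (hdg : dg G C v < 2) :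
    ∃ u ∈ C, u ≠ v ∧ G.Adj u v ∧ (∀ w ∈ C, G.Adj v w → w = u) ∧
      (G.induce ((C.erase v : Finset V) : Set V)).Connected ∧ b2 G (C.erase v) ≤ b2 G C := by
  -- a neighbour exists
  have hne : ∃ w ∈ C, w ≠ v := by
    by_contra hno
    push Not at hno
    have : C ⊆ {v} := fun w hw => Finset.mem_singleton.2 (hno w hw)
    have := Finset.card_le_card this
    rw [Finset.card_singleton] at this
    omega
  obtain ⟨w, hw, hwv⟩ := hne
  have hnb : ∃ u ∈ C, G.Adj v u := by
    obtain ⟨p⟩ := hC.preconnected ⟨v, hv⟩ ⟨w, hw⟩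
    cases p with
    | nil => exact absurd rfl hwv
    | @cons _ b _ hab _ => exact ⟨b, b.2, hab⟩
  obtain ⟨u, hu, hvu⟩ := hnb
  have huniq : ∀ w ∈ C, G.Adj v w → w = u := by
    intro w hw hvw
    by_contra hne
    have : ({w, u} : Finset V) ⊆ C.filter (G.Adj v) := by
      intro z hz
      rw [Finset.mem_insert, Finset.mem_singleton] at hz
      rcases hz with rfl | rfl
      · simp [hw, hvw]
      · simp [hu, hvu]
    have h3 := Finset.card_le_card this
    rw [Finset.card_pair hne] at h3
    unfold dg at hdg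
    omega
  have huv : u ≠ v := fun h => G.loopless.irrefl v (h ▸ hvu)
  refine ⟨u, hu, huv, hvu.symm, huniq, ?_, ?_⟩
  · -- connectivity
    have huC : u ∈ ((C.erase v : Finset V) : Set V) := by simp [hu, huv]
    let ρ : ↥(C : Set V) → ↥((C.erase v : Finset V) : Set V) := fun r =>
      if h : (r : V) = v then ⟨u, huC⟩ else ⟨r, by
        have := r.2
        simp only [Finset.coe_erase, Set.mem_sdiff, Set.mem_singleton_iff]
        exact ⟨this, h⟩⟩
    have hρ : ∀ a b : (C : Set V), (G.induce (C : Set V)).Adj a b →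
        (G.induce ((C.erase v : Finset V) : Set V)).Reachable (ρ a) (ρ b) := by
      intro a b hab
      have hab' : G.Adj (a : V) (b : V) := hab
      by_cases h1 : (a : V) = v
      · have h3 : (b : V) = u := huniq b b.2 (h1 ▸ hab')
        have h4 : (b : V) ≠ v := by rw [h3]; exact huv
        have e1 : ρ a = ⟨u, huC⟩ := dif_pos h1
        have e2 : ρ b = ⟨u, huC⟩ := by
          have : ρ b = _ := dif_neg h4
          rw [this]
          exact Subtype.ext h3
        rw [e1, e2]
      · by_cases h5 : (b : V) = v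
        · have h3 : (a : V) = u := huniq a a.2 (h5 ▸ hab'.symm)
          have e1 : ρ b = ⟨u, huC⟩ := dif_pos h5
          have e2 : ρ a = ⟨u, huC⟩ := by
            have : ρ a = _ := dif_neg h1
            rw [this]
            exact Subtype.ext h3
          rw [e1, e2]
        · have e1 : ρ a = _ := dif_neg h1
          have e2 : ρ b = _ := dif_neg h5
          refine SimpleGraph.Adj.reachable ?_
          rw [e1, e2]
          exact hab'
    have hwalk : ∀ a b : (C : Set V), (G.induce (C : Set V)).Walk a b →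
        (G.induce ((C.erase v : Finset V) : Set V)).Reachable (ρ a) (ρ b) := by
      intro a b p
      induction p with
      | nil => exact SimpleGraph.Reachable.refl _
      | cons h _ ih => exact (hρ _ _ h).trans ih
    have : Nonempty ((C.erase v : Finset V) : Set V) := ⟨⟨u, huC⟩⟩
    refine SimpleGraph.Connected.mk fun a b => ?_
    have ha : (a : V) ∈ C ∧ (a : V) ≠ v := by
      have := a.2
      simp only [Finset.coe_erase, Set.mem_sdiff, Set.mem_singleton_iff, Finset.mem_coe] at this
      exact this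
    have hb : (b : V) ∈ C ∧ (b : V) ≠ v := by
      have := b.2
      simp only [Finset.coe_erase, Set.mem_sdiff, Set.mem_singleton_iff, Finset.mem_coe] at this
      exact this
    obtain ⟨p⟩ := hC.preconnected ⟨a, ha.1⟩ ⟨b, hb.1⟩
    have h6 := hwalk _ _ p
    have e1 : ρ ⟨a, ha.1⟩ = a := by
      have : ρ ⟨a, ha.1⟩ = _ := dif_neg ha.2
      rw [this]
    have e2 : ρ ⟨b, hb.1⟩ = b := by
      have : ρ ⟨b, hb.1⟩ = _ := dif_neg hb.2
      rw [this]
    rwa [e1, e2] at h6
  · -- the cyclomatic number
    have h1 := D_split G C (C.erase v) (Finset.erase_subset _ _)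
    have h3 : C \ C.erase v = {v} := by
      ext z
      simp only [Finset.mem_sdiff, Finset.mem_erase, Finset.mem_singleton]
      constructor
      · rintro ⟨hz, hz'⟩
        by_contra hne
        exact hz' ⟨hne, hz⟩
      · rintro rfl
        exact ⟨hv, fun h => h.1 rfl⟩
    rw [h3, Finset.sum_singleton] at h1
    have h4 : 1 ≤ dg G C v := Finset.card_pos.2 ⟨u, by simp [hu, hvu]⟩
    have h5 : 1 ≤ ∑ a ∈ C.erase v, (({v} : Finset V).filter (G.Adj a)).card := by
      calc 1 ≤ (({v} : Finset V).filter (G.Adj u)).card := by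
            refine Finset.card_pos.2 ⟨v, ?_⟩
            simp [hvu.symm]
        _ ≤ _ := Finset.single_le_sum (f := fun a => (({v} : Finset V).filter (G.Adj a)).card)
            (fun _ _ => Nat.zero_le _) (Finset.mem_erase.2 ⟨huv, hu⟩)
    have h6 : (C.erase v).card + 1 = C.card := Finset.card_erase_add_one hv
    unfold b2
    omega

/-- the additive constant -/
def B0 (K : ℕ) : ℕ := (2 * K) ^ (2 * K) + 1

/-- The induction: with `b = 2 β`, `k` cops win on `C` if `β + 1 ≤ k` or
`β + K (B0 K + 1) ≤ K k`. -/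
theorem main_ind (G : SimpleGraph V) (hG : G.Connected) (K : ℕ) (hK : 1 ≤ K) :
    ∀ n : ℕ, ∀ C : Finset V, C.card = n → (G.induce (C : Set V)).Connected → ∀ k : ℕ, 1 ≤ k →
      (b2 G C + 2 ≤ 2 * k ∨ (2 ≤ K ∧ b2 G C + 2 * K * (B0 K + 1) ≤ 2 * K * k)) →
      CW G (C : Set V) k := by
  intro n
  induction n using Nat.strong_induction_on with
  | _ n ih =>
    intro C hn hC k hk hcond
    have hb0 := b2_nonneg G C hC
    obtain ⟨x⟩ := hC.nonempty
    by_cases hcard : C.card = 1
    · obtain ⟨v, hv⟩ := Finset.card_eq_one.1 hcard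
      rw [hv, Finset.coe_singleton]
      exact CW_single hG v k hk
    have hc2 : 2 ≤ C.card := by
      have : 0 < C.card := Finset.card_pos.2 ⟨x, x.2⟩
      omega
    by_cases hleaf : ∃ v ∈ C, dg G C v < 2
    · obtain ⟨v, hv, hdg⟩ := hleaf
      obtain ⟨u, hu, huv, hadj, huniq, hconn, hb⟩ := leaf_facts G C hC v hv hc2 hdg
      refine CW_leaf (u := u) (v := v) hu huv hadj huniq ?_
      have h1 : (C : Set V) \ {v} = ((C.erase v : Finset V) : Set V) := by simp
      rw [h1]
      refine ih _ (by rw [← hn]; exact Finset.card_erase_lt_of_mem hv) _ rfl hconn k hk ?_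
      rcases hcond with h | ⟨h, h'⟩
      · left; omega
      · right; exact ⟨h, by omega⟩
    push Not at hleaf
    obtain ⟨k, rfl⟩ : ∃ j, k = j + 1 := ⟨k - 1, by omega⟩
    -- first case: one vertex
    have caseA : b2 G C + 2 ≤ 2 * ((k + 1 : ℕ) : ℤ) → CW G (C : Set V) (k + 1) := by
      intro hA
      refine CW_geo hG C hC 0 (fun _ => x) (fun i hi => absurd hi (Nat.not_lt_zero i))
        (fun i hi => ?_) k ?_
      · obtain rfl : i = 0 := by omega
        simp
      intro C' hsub hout hconn he
      have h1 := b2_drop G C C' hsub hleaf he ∅ (Finset.empty_subset _)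
      rw [Finset.sum_empty] at h1
      have h2 := b2_nonneg G C' hconn
      obtain ⟨m, hm⟩ := b2_even G C
      obtain ⟨m', hm'⟩ := b2_even G C'
      have hlt : C'.card < n := by
        rw [← hn]
        refine Finset.card_lt_card ⟨hsub, fun h => ?_⟩
        exact hout 0 le_rfl (h x.2)
      refine ih _ hlt C' rfl hconn k ?_ (Or.inl ?_)
      · push_cast at hA; omega
      · push_cast at hA; omega
    rcases hcond with hA | ⟨hK2, hB⟩
    · exact caseA hA
    have hKB : ((2 * K : ℤ)) * (B0 K + 1) ≤ 2 * K * ((k + 1 : ℕ) : ℤ) := by linarith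
    have hKpos : (0 : ℤ) < 2 * K := by positivity
    have hkB : ((B0 K : ℤ) + 1) ≤ ((k + 1 : ℕ) : ℤ) := le_of_mul_le_mul_left hKB hKpos
    by_cases hsmall : b2 G C ≤ 2 * B0 K
    · apply caseA
      linarith
    push Not at hsmall
    -- second case: a geodesic with many branch vertices
    have hbig : (((2 * K : ℕ) : ℤ) ^ (2 * K)) < (Nat.card (G.induce (C : Set V)).edgeSet : ℤ) -
        Nat.card (C : Set V) := by
      have h1 := D_eq G C
      have h2 : Nat.card (C : Set V) = C.card := by
        rw [Nat.card_eq_fintype_card]; simp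
      rw [h2]
      unfold b2 at hsmall
      rw [h1] at hsmall
      unfold B0 at hsmall
      generalize Nat.card (G.induce (C : Set V)).edgeSet = E at hsmall ⊢
      push_cast at hsmall ⊢
      linarith
    obtain ⟨L, q, hq, hd, hsum⟩ := exists_geo (G.induce (C : Set V)) hC K hK2
      (fun v => by rw [nbr_eq]; exact hleaf v v.2) hbig
    refine CW_geo hG C hC L q hq hd k ?_
    intro C' hsub hout hconn he
    -- the path as a finset
    have hinj : Set.InjOn (fun i => (q i : V)) (Finset.range (L + 1) : Set ℕ) := by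
      intro i hi j hj hij
      have hi' : i ≤ L := by simpa [Nat.lt_succ_iff] using hi
      have hj' : j ≤ L := by simpa [Nat.lt_succ_iff] using hj
      have h1 : q i = q j := Subtype.ext hij
      have h2 := hd i hi'
      have h3 := hd j hj'
      rw [h1] at h2
      omega
    have hP : (Finset.range (L + 1)).image (fun i => (q i : V)) ⊆ C \ C' := by
      intro z hz
      obtain ⟨i, hi, rfl⟩ := Finset.mem_image.1 hz
      have hi' : i ≤ L := by simpa [Nat.lt_succ_iff] using hi
      exact Finset.mem_sdiff.2 ⟨(q i).2, hout i hi'⟩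
    have h1 := b2_drop G C C' hsub hleaf he _ hP
    rw [Finset.sum_image hinj] at h1
    have h2 : ∑ i ∈ Finset.range (L + 1),
        ((((G.induce (C : Set V)).neighborSet (q i)).ncard : ℤ) - 2) =
        ∑ i ∈ Finset.range (L + 1), ((dg G C (q i) : ℤ) - 2) :=
      Finset.sum_congr rfl fun i _ => by rw [nbr_eq]
    rw [h2] at hsum
    have h3 := b2_nonneg G C' hconn
    have hlt : C'.card < n := by
      rw [← hn]
      refine Finset.card_lt_card ⟨hsub, fun h => ?_⟩
      exact hout 0 (Nat.zero_le _) (h (q 0).2)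
    have h4 : b2 G C' + 2 * K * (B0 K + 1) ≤ 2 * K * (k : ℤ) := by
      push_cast at hB
      linarith
    refine ih _ hlt C' rfl hconn k ?_ (Or.inr ⟨hK2, h4⟩)
    by_contra hk0
    obtain rfl : k = 0 := by omega
    have : (0 : ℤ) < 2 * K * (B0 K + 1) := by positivity
    push_cast at h4
    linarith

end Pool.Agent.CPF
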