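import Pool.Agent.COPG.Game

/-!
# Cops and robbers: retractions
-/

set_option autoImplicit false

namespace Pool.Agent.CPF

open Pool.Agent.COPG

variable {V : Type} {G : SimpleGraph V}

/-- A map `f` from `C` to `C'` that moves every vertex to one which dominates it: cops that win
on `C'` win on `C`. -/
theorem WinC.retract {C C' : Set V} {f : V → V} (hmap : ∀ x ∈ C, f x ∈ C')
    (hadj : ∀ x ∈ C, ∀ y ∈ C, G.Adj x y → f y = f x ∨ G.Adj (f x) (f y))
    (hdom : ∀ x ∈ C, ∀ y ∈ C, y = x ∨ G.Adj x y → y = f x ∨ G.Adj (f x) y)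
    {k : ℕ} {c : Fin k → V} {r : V} (h : WinC G C' c r) :
    ∀ r0 ∈ C, f r0 = r → WinC G C c r0 := by
  classical
  induction h with
  | caught c r i h =>
    intro r0 hr0 hr
    refine WinC.mk fun r' hr' hadj' => ?_
    refine ⟨Function.update c i r', fun j => ?_, WinC.caught _ _ i (by simp)⟩
    by_cases hj : j = i
    · subst hj
      rw [Function.update_self, h, ← hr]
      exact hdom r0 hr0 r' hr' hadj'
    · rw [Function.update_of_ne hj]
      exact Or.inl rfl
  | step c r g hg hw ih =>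
    intro r0 hr0 hr
    refine WinC.mk fun r' hr' hadj' => ?_
    have h1 : f r' = r ∨ G.Adj r (f r') := by
      rcases hadj' with rfl | h1
      · exact Or.inl hr
      · rw [← hr]
        exact hadj r0 hr0 r' hr' h1
    exact ⟨g (f r'), hg (f r') (hmap r' hr') h1, ih (f r') (hmap r' hr') h1 r' hr' rfl⟩

theorem CW.retract {C C' : Set V} {f : V → V} (hmap : ∀ x ∈ C, f x ∈ C')
    (hadj : ∀ x ∈ C, ∀ y ∈ C, G.Adj x y → f y = f x ∨ G.Adj (f x) (f y))
    (hdom : ∀ x ∈ C, ∀ y ∈ C, y = x ∨ G.Adj x y → y = f x ∨ G.Adj (f x) y)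
    {k : ℕ} (h : CW G C' k) : CW G C k := fun c r hr =>
  WinC.retract hmap hadj hdom (h c (f r) (hmap r hr)) r hr rfl

/-- A vertex `v` of `C` with exactly one neighbour in `C` may be removed. -/
theorem CW.leaf {C : Set V} {v u : V} (hu : u ∈ C) (hvu : G.Adj v u)
    (hleaf : ∀ w ∈ C, G.Adj v w → w = u) {k : ℕ} (h : CW G (C \ {v}) k) : CW G C k := by
  classical
  have huv : u ≠ v := hvu.ne'
  refine CW.retract (C' := C \ {v}) (f := fun x => if x = v then u else x) ?_ ?_ ?_ h
  · intro x hx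
    by_cases hxv : x = v
    · simp only [hxv, if_true]
      exact ⟨hu, huv⟩
    · simp only [hxv, if_false]
      exact ⟨hx, hxv⟩
  · intro x hx y hy hxy
    by_cases hxv : x = v
    · subst hxv
      have := hleaf y hy hxy
      subst this
      left
      simp [huv]
    · by_cases hyv : y = v
      · subst hyv
        have := hleaf x hx hxy.symm
        subst this
        left
        simp [huv]
      · right
        simpa [hxv, hyv] using hxy
  · intro x hx y hy hxy
    by_cases hxv : x = v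
    · subst hxv
      simp only [if_true]
      rcases hxy with rfl | hxy
      · exact Or.inr hvu.symm
      · exact Or.inl (hleaf y hy hxy)
    · simpa [hxv] using hxy

/-- The component of `r` in `G[S]`. -/
theorem exists_comp (G : SimpleGraph V) (S : Set V) {r : V} (hr : r ∈ S) :
    ∃ C' : Set V, r ∈ C' ∧ C' ⊆ S ∧ (G.induce C').Connected ∧
      ∀ x ∈ C', ∀ y ∈ S, G.Adj x y → y ∈ C' := by
  let K := (G.induce S).connectedComponentMk ⟨r, hr⟩
  refine ⟨(fun x : S => (x : V)) '' K.supp, ⟨⟨r, hr⟩, ?_, rfl⟩, ?_, ?_, ?_⟩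
  · exact SimpleGraph.ConnectedComponent.mem_supp_iff _ _ |>.2 rfl
  · rintro _ ⟨x, _, rfl⟩
    exact x.2
  · have h1 : ((G.induce S).induce K.supp).Connected := K.connected_toSimpleGraph
    have e : (G.induce S).induce K.supp ≃g G.induce ((fun x : S => (x : V)) '' K.supp) :=
      { toEquiv := (Equiv.Set.image _ K.supp Subtype.val_injective)
        map_rel_iff' := by
          intro a b
          simp }
    exact e.connected_iff.1 h1
  · rintro _ ⟨x, hx, rfl⟩ y hy hxy
    refine ⟨⟨y, hy⟩, ?_, rfl⟩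
    rw [SimpleGraph.ConnectedComponent.mem_supp_iff] at hx ⊢
    rw [← hx]
    refine SimpleGraph.ConnectedComponent.connectedComponentMk_eq_of_adj ?_
    exact (show (G.induce S).Adj ⟨y, hy⟩ x from hxy.symm)

/-- A walk from `C'` leaves it: `G[C]` connected, `C' ⊂ C` nonempty. -/
theorem exists_edge {C C' : Set V} (hC : (G.induce C).Connected) (hsub : C' ⊆ C) (hne : C'.Nonempty)
    {z : V} (hz : z ∈ C) (hz' : z ∉ C') : ∃ a ∈ C', ∃ b ∈ C, b ∉ C' ∧ G.Adj a b := by
  by_contra hcon
  push Not at hcon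
  obtain ⟨a, ha⟩ := hne
  obtain ⟨w⟩ := hC.preconnected ⟨a, hsub ha⟩ ⟨z, hz⟩
  have : ∀ (x y : C), (G.induce C).Walk x y → (x : V) ∈ C' → (y : V) ∈ C' := by
    intro x y w
    induction w with
    | nil => exact fun h => h
    | @cons x y _ hxy _ ih =>
      intro hx
      refine ih ?_
      by_contra hy
      exact hcon x hx y y.2 hy hxy
  exact hz' (this _ _ w ha)

/-- On a sequence `q` which goes from `x` to `v` in `dist x v` steps, `q i` is at distance `i`. -/
theorem geo_dist {W : Type*} {H : SimpleGraph W} (hH : H.Connected) {x v : W} {q : ℕ → W}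
    (h0 : q 0 = x) (h1 : ∀ i < H.dist x v, H.Adj (q i) (q (i + 1))) (h2 : q (H.dist x v) = v) :
    ∀ i ≤ H.dist x v, H.dist x (q i) = i := by
  have hle : ∀ i ≤ H.dist x v, H.dist x (q i) ≤ i := by
    intro i
    induction i with
    | zero => intro _; rw [h0, SimpleGraph.dist_self]
    | succ i ih =>
      intro hi
      have h3 := ih (by omega)
      have h4 := hH.dist_triangle (u := x) (v := q i) (w := q (i + 1))
      have h5 : H.dist (q i) (q (i + 1)) = 1 := SimpleGraph.dist_eq_one_iff_adj.2 (h1 i (by omega))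
      omega
  have hge : ∀ j ≤ H.dist x v, H.dist (q (H.dist x v - j)) v ≤ j := by
    intro j
    induction j with
    | zero => intro _; rw [Nat.sub_zero, h2, SimpleGraph.dist_self]
    | succ j ih =>
      intro hj
      have h3 := ih (by omega)
      have h4 := hH.dist_triangle (u := q (H.dist x v - (j + 1))) (v := q (H.dist x v - j)) (w := v)
      have h5 : H.dist (q (H.dist x v - (j + 1))) (q (H.dist x v - j)) = 1 := by
        have := h1 (H.dist x v - (j + 1)) (by omega)
        rw [show H.dist x v - (j + 1) + 1 = H.dist x v - j by omega] at this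
        exact SimpleGraph.dist_eq_one_iff_adj.2 this
      omega
  intro i hi
  have h3 := hle i hi
  have h4 := hge (H.dist x v - i) (by omega)
  rw [show H.dist x v - (H.dist x v - i) = i by omega] at h4
  have h5 := hH.dist_triangle (u := x) (v := q i) (w := v)
  omega

/-- One cop guards a geodesic of `G[C]`: it suffices to win on every component of the rest. -/
theorem CW.geo (hG : G.Connected) {C : Set V} (hC : (G.induce C).Connected) {k : ℕ} {x v : C}
    {q : ℕ → C} (h0 : q 0 = x)
    (h1 : ∀ i < (G.induce C).dist x v, (G.induce C).Adj (q i) (q (i + 1)))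
    (h2 : q ((G.induce C).dist x v) = v)
    (h : ∀ C' : Set V, C' ⊆ C → C'.Nonempty → (G.induce C').Connected →
      (∀ i ≤ (G.induce C).dist x v, (q i : V) ∉ C') →
      (∀ a ∈ C', ∀ b ∈ C, G.Adj a b → b ∈ C' ∨ ∃ i ≤ (G.induce C).dist x v, b = q i) →
      CW G C' k) : CW G C (k + 1) := by
  classical
  set L := (G.induce C).dist x v with hL
  have hdist := geo_dist hC h0 h1 h2
  let s : V → ℕ := fun y => if hy : y ∈ C then min L ((G.induce C).dist x ⟨y, hy⟩) else 0
  have hs : ∀ y (hy : y ∈ C), s y = min L ((G.induce C).dist x ⟨y, hy⟩) := fun y hy => dif_pos hy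
  refine CW.path hG L (fun i => (q i : V)) s ?_ ?_ ?_ ?_ ?_
  · intro i hi
    exact h1 i hi
  · intro y hy
    rw [hs y hy]
    exact min_le_left _ _
  · intro a ha b hb hab
    rw [hs a ha, hs b hb]
    have h4 := hC.dist_triangle (u := x) (v := ⟨a, ha⟩) (w := ⟨b, hb⟩)
    have h5 : (G.induce C).dist ⟨a, ha⟩ ⟨b, hb⟩ = 1 :=
      SimpleGraph.dist_eq_one_iff_adj.2 hab
    omega
  · intro i hi
    rw [hs _ (q i).2]
    have := hdist i hi
    rw [show (⟨(q i : V), (q i).2⟩ : C) = q i from rfl, this]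
    exact min_eq_right hi
  · intro r hr hrp
    let S : Set V := {y | y ∈ C ∧ ∀ i ≤ L, y ≠ q i}
    obtain ⟨C', h3, h4, h5, h6⟩ := exists_comp G S (r := r) ⟨hr, hrp⟩
    have h7 : ∀ a ∈ C', ∀ b ∈ C, G.Adj a b → b ∈ C' ∨ ∃ i ≤ L, b = q i := by
      intro a ha b hb hab
      by_cases hbS : b ∈ S
      · exact Or.inl (h6 a ha b hbS hab)
      · right
        by_contra hcon
        push Not at hcon
        exact hbS ⟨hb, hcon⟩
    refine ⟨C', h3, fun y hy => (h4 hy).1, h7, ?_⟩
    refine h C' (fun y hy => (h4 hy).1) ⟨r, h3⟩ h5 ?_ h7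
    intro i hi hqi
    exact (h4 hqi).2 i hi rfl

/-- One cop stands on a vertex `v` of `C`: it suffices to win on every component of the rest. -/
theorem CW.vertex (hG : G.Connected) {C : Set V} {k : ℕ} (v : V)
    (h : ∀ C' : Set V, C' ⊆ C → C'.Nonempty → (G.induce C').Connected → v ∉ C' →
      (∀ a ∈ C', ∀ b ∈ C, G.Adj a b → b ∈ C' ∨ b = v) → CW G C' k) : CW G C (k + 1) := by
  classical
  refine CW.stand hG v ?_
  intro r hr hrv _
  obtain ⟨C', h3, h4, h5, h6⟩ := exists_comp G (C \ {v}) (r := r) ⟨hr, hrv⟩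
  have h7 : ∀ a ∈ C', ∀ b ∈ C, G.Adj a b → b ∈ C' ∨ b = v := by
    intro a ha b hb hab
    by_cases hbv : b = v
    · exact Or.inr hbv
    · exact Or.inl (h6 a ha b ⟨hb, hbv⟩ hab)
  refine ⟨C', h3, fun y hy => (h4 hy).1, ?_, ?_⟩
  · intro a ha b hb hab
    rcases h7 a ha b hb hab with h8 | h8
    · exact Or.inl h8
    · exact Or.inr (Or.inl h8)
  · exact h C' (fun y hy => (h4 hy).1) ⟨r, h3⟩ h5 (fun hv => (h4 hv).2 rfl) h7

end Pool.Agent.CPF
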