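import Pool.Agent.CPF.Ind
import Pool.Agent.EMP623.Euler

set_option autoImplicit false

/-!
# Cops and robbers: the cop number is `o(|E| - |V|)`
-/

namespace Pool.Agent.CPF

open Pool.Agent.COPG

theorem conn_top {V : Type} [Fintype V] {G : SimpleGraph V} (hG : G.Connected) :
    (G.induce ((Finset.univ : Finset V) : Set V)).Connected := by
  rw [Finset.coe_univ]
  exact (SimpleGraph.induceUnivIso G).symm.connected_iff.1 hG

theorem copWin_card {V : Type} [Fintype V] (G : SimpleGraph V) (hG : G.Connected) (K : ℕ)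
    (hK : 1 ≤ K) :
    ∃ k : ℕ, CopWin G k ∧
      K * k + Nat.card V ≤ Nat.card G.edgeSet + (2 * K) ^ (2 * K + 2) := by
  have hne : Nonempty V := hG.nonempty
  have hc := conn_top hG
  have hV : (Finset.univ : Finset V).card = Nat.card V := by
    rw [Nat.card_eq_fintype_card]; rfl
  have hE := D_univ G
  have hb : b2 G Finset.univ = 2 * ((Nat.card G.edgeSet : ℤ) + 1 - Nat.card V) := by
    unfold b2
    rw [hE, hV]
    push_cast
    ring
  have h0 := b2_nonneg G _ hc
  rw [hb] at h0
  obtain ⟨β, hβ⟩ : ∃ β : ℕ, Nat.card G.edgeSet + 1 = Nat.card V + β :=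
    ⟨Nat.card G.edgeSet + 1 - Nat.card V, by omega⟩
  have hb' : b2 G Finset.univ = 2 * (β : ℤ) := by
    rw [hb]
    have : ((Nat.card G.edgeSet : ℤ) + 1) = Nat.card V + β := by exact_mod_cast hβ
    rw [this]; ring
  have fin : ∀ k : ℕ, CW G ((Finset.univ : Finset V) : Set V) k → CopWin G k := by
    intro k h
    rw [Finset.coe_univ] at h
    exact CW.copWin h
  rcases Nat.lt_or_ge 1 K with h2 | h1
  · -- `K ≥ 2`
    have hdm := Nat.div_add_mod (β + (K - 1)) K
    have hmod := Nat.mod_lt (β + (K - 1)) (show 0 < K by omega)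
    set q := (β + (K - 1)) / K with hq
    refine ⟨q + B0 K + 1, fin _ (main_ind G hG K hK _ Finset.univ rfl hc _
      (Nat.le_add_left 1 _) (Or.inr ⟨h2, ?_⟩)), ?_⟩
    · rw [hb']
      have h3 : β ≤ K * q := by omega
      have h4 : (β : ℤ) ≤ K * q := by exact_mod_cast h3
      push_cast
      linarith
    · have h3 : K * q ≤ β + (K - 1) := by omega
      have h4 : 1 ≤ (2 * K) ^ (2 * K) := Nat.one_le_pow _ _ (by omega)
      have h5 : (2 * K) ^ (2 * K + 2) = 4 * K * K * (2 * K) ^ (2 * K) := by ring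
      have h6 : K * ((2 * K) ^ (2 * K) + 3) ≤ 4 * K * K * (2 * K) ^ (2 * K) := by
        generalize (2 * K) ^ (2 * K) = X at h4
        have h7 : K * (X + 3) ≤ K * (4 * X) := Nat.mul_le_mul_left _ (by omega)
        have h8 : K * (4 * X) ≤ K * (4 * X) * K := Nat.le_mul_of_pos_right _ (by omega)
        calc K * (X + 3) ≤ K * (4 * X) * K := h7.trans h8
          _ = 4 * K * K * X := by ring
      have h7 : K * (q + B0 K + 1) = K * q + K * ((2 * K) ^ (2 * K) + 2) := by
        unfold B0; ring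
      have h8 : K * ((2 * K) ^ (2 * K) + 3) = K * ((2 * K) ^ (2 * K) + 2) + K := by ring
      rw [h5, h7]
      omega
  · -- `K = 1`
    obtain rfl : K = 1 := by omega
    refine ⟨β + 1, fin _ (main_ind G hG 1 le_rfl _ Finset.univ rfl hc _ (by omega)
      (Or.inl ?_)), ?_⟩
    · rw [hb']; push_cast; linarith
    · have h16 : (2 * 1) ^ (2 * 1 + 2) = 16 := by norm_num
      rw [h16]
      omega

/-- the corollary for rotation systems -/
theorem copWin_faces {V : Type} [Fintype V] (G : SimpleGraph V) (hG : G.Connected)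
    (K C : ℕ) (hK : 1 ≤ K) (g F : ℕ)
    (hE : Nat.card G.edgeSet + 2 = Nat.card V + F + 2 * g) (hF : F ≤ C * g)
    (hg : (2 * (K * (C + 3))) ^ (2 * (K * (C + 3)) + 2) ≤ g) :
    ∃ k : ℕ, CopWin G k ∧ K * k ≤ g := by
  obtain ⟨k, hk, h⟩ := copWin_card G hG (K * (C + 3)) (by nlinarith)
  refine ⟨k, hk, ?_⟩
  have h1 : K * (C + 3) * k ≤ (C + 3) * g := by nlinarith
  have h2 : (C + 3) * (K * k) ≤ (C + 3) * g := by
    calc (C + 3) * (K * k) = K * (C + 3) * k := by ring
      _ ≤ _ := h1
  exact Nat.le_of_mul_le_mul_left h2 (by omega)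

end Pool.Agent.CPF
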