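import Mathlib

set_option autoImplicit false

/-!
# The choice of `K` in `c (G) ≤ (b + (2 K) ^ (2 K + 2)) / K`
-/

namespace Pool.Agent.CPF

/-- The rate `b log log b / log b`. -/
theorem exists_rate : ∃ C : ℝ, 0 < C ∧ ∀ b : ℕ, 16 ≤ b → ∃ K : ℕ, 1 ≤ K ∧
    ((b : ℝ) + ((2 * K) ^ (2 * K + 2) : ℕ)) / K ≤ C * b * Real.log (Real.log b) / Real.log b := by
  refine ⟨40, by norm_num, ?_⟩
  intro b hb
  have hb16 : (16 : ℝ) ≤ b := by exact_mod_cast hb
  have hb0 : (0 : ℝ) < b := by linarith
  set L : ℝ := Real.log b with hL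
  have he : Real.exp 1 < 2.7182818286 := Real.exp_one_lt_d9
  -- `log 16 > e`
  have hL16 : (2.77 : ℝ) ≤ L := by
    have h1 : Real.log 16 ≤ L := Real.log_le_log (by norm_num) hb16
    have h2 : Real.log 16 = 4 * Real.log 2 := by
      rw [show (16 : ℝ) = 2 ^ (4 : ℕ) by norm_num, Real.log_pow]
      norm_num
    have h3 := Real.log_two_gt_d9
    linarith
  have hLpos : 0 < L := by linarith
  set M : ℝ := Real.log L with hM
  have hM1 : 1 ≤ M := by
    rw [hM, Real.le_log_iff_exp_le hLpos]
    linarith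
  have hMpos : 0 < M := by linarith
  by_cases hcase : L < 17
  · refine ⟨1, le_rfl, ?_⟩
    have h1 : ((b : ℝ) + ((2 * 1) ^ (2 * 1 + 2) : ℕ)) / (1 : ℕ) ≤ 2 * b := by
      push_cast
      norm_num
      linarith
    refine h1.trans ?_
    rw [le_div_iff₀ hLpos]
    have h2 : 2 * (b : ℝ) * L ≤ 2 * b * 17 := by
      apply mul_le_mul_of_nonneg_left hcase.le (by positivity)
    have h3 : 2 * (b : ℝ) * 17 ≤ 40 * b * 1 := by linarith
    have h4 : 40 * (b : ℝ) * 1 ≤ 40 * b * M := mul_le_mul_of_nonneg_left hM1 (by positivity)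
    linarith
  · push Not at hcase
    -- `4 M ≤ L`
    have hML : 4 * M ≤ L := by
      have h1 : M ≤ Real.log 16 + (L / 16 - 1) := by
        have h2 : M = Real.log 16 + Real.log (L / 16) := by
          rw [← Real.log_mul (by norm_num) (by positivity)]
          rw [hM]
          congr 1
          ring
        rw [h2]
        have h3 := Real.log_le_sub_one_of_pos (show (0 : ℝ) < L / 16 by positivity)
        linarith
      have h2 : Real.log 16 = 4 * Real.log 2 := by
        rw [show (16 : ℝ) = 2 ^ (4 : ℕ) by norm_num, Real.log_pow]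
        norm_num
      have h3 := Real.log_two_lt_d9
      nlinarith
    set x : ℝ := L / (4 * M) with hx
    have hx1 : 1 ≤ x := by
      rw [hx, le_div_iff₀ (by positivity)]
      linarith
    set K : ℕ := ⌊x⌋₊ with hK
    have hK1 : 1 ≤ K := by
      rw [hK]
      exact Nat.le_floor (by exact_mod_cast hx1)
    have hKx : (K : ℝ) ≤ x := Nat.floor_le (by linarith)
    have hKx2 : x / 2 ≤ K := by
      have h1 : x < K + 1 := Nat.lt_floor_add_one x
      have h2 : (1 : ℝ) ≤ K := by exact_mod_cast hK1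
      linarith
    have hKR : (1 : ℝ) ≤ K := by exact_mod_cast hK1
    have hKM : 4 * M * K ≤ L := by
      have h1 : 4 * M * K ≤ 4 * M * x := mul_le_mul_of_nonneg_left hKx (by positivity)
      have h2 : 4 * M * x = L := by
        rw [hx]
        field_simp
      linarith
    refine ⟨K, hK1, ?_⟩
    -- `(2 K) ^ (2 K + 2) ≤ b`
    have hpow : (((2 * K) ^ (2 * K + 2) : ℕ) : ℝ) ≤ b := by
      have h2K : (0 : ℝ) < 2 * K := by linarith
      have hlog : (2 * (K : ℝ) + 2) * Real.log (2 * K) ≤ L := by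
        -- `2 K ≤ L`, so `log (2 K) ≤ M`; and `2 K + 2 ≤ 4 K`
        have h1 : 2 * (K : ℝ) ≤ L := by nlinarith
        have h2 : Real.log (2 * K) ≤ M := Real.log_le_log h2K h1
        have h3 : (2 * (K : ℝ) + 2) * Real.log (2 * K) ≤ (2 * (K : ℝ) + 2) * M :=
          mul_le_mul_of_nonneg_left h2 (by positivity)
        nlinarith
      have h4 : (((2 * K) ^ (2 * K + 2) : ℕ) : ℝ) = Real.exp ((2 * (K : ℝ) + 2) * Real.log (2 * K)) := by
        rw [show (2 * (K : ℝ) + 2) = ((2 * K + 2 : ℕ) : ℝ) by push_cast; ring,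
          mul_comm (((2 * K + 2 : ℕ) : ℝ)), ← Real.rpow_def_of_pos h2K, Real.rpow_natCast]
        push_cast
        rfl
      rw [h4]
      calc Real.exp ((2 * (K : ℝ) + 2) * Real.log (2 * K)) ≤ Real.exp L := Real.exp_le_exp.2 hlog
        _ = b := Real.exp_log hb0
    rw [div_le_div_iff₀ (by linarith) hLpos]
    have h5 : ((b : ℝ) + ((2 * K) ^ (2 * K + 2) : ℕ)) * L ≤ 2 * b * L := by
      apply mul_le_mul_of_nonneg_right _ hLpos.le
      linarith
    have h6 : 2 * (b : ℝ) * L = 8 * b * M * x := by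
      rw [hx]
      field_simp
      ring
    have h7 : 8 * (b : ℝ) * M * x ≤ 8 * b * M * (2 * K) := by
      apply mul_le_mul_of_nonneg_left _ (by positivity)
      linarith
    have h8 : 8 * (b : ℝ) * M * (2 * K) ≤ 40 * b * M * K := by
      have : 0 ≤ (b : ℝ) * M * K := by positivity
      nlinarith
    linarith

end Pool.Agent.CPF
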