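import Mathlib

set_option autoImplicit false

/-!
# The bound `C b log log b / log b` for `b = F + 2 g - 1`
-/

namespace Pool.Agent.CPF

open Filter Real

theorem rate_faces (C : ℝ) (hC : 0 < C) (ε : ℝ) (hε : 0 < ε) :
    ∃ c : ℝ, 0 < c ∧ ∃ g₀ : ℕ, ∀ g F : ℕ, g₀ ≤ g →
      (F : ℝ) ≤ c * g * Real.log g / Real.log (Real.log g) →
      ∀ b : ℕ, b + 1 = F + 2 * g →
        16 ≤ b ∧ C * b * Real.log (Real.log b) / Real.log b ≤ ε * g := by
  set c : ℝ := ε / (2 * C) with hc
  have hc0 : 0 < c := by positivity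
  -- eventually `2 log log g ≤ c log g`
  have h1 : ∀ᶠ v : ℝ in atTop, 2 * Real.log v ≤ c * v := by
    have h := Real.isLittleO_log_id_atTop.def (show (0 : ℝ) < c / 2 by positivity)
    filter_upwards [h, eventually_gt_atTop (1 : ℝ)] with v hv hv1
    have h2 : 0 < Real.log v := Real.log_pos hv1
    rw [Real.norm_eq_abs, abs_of_pos h2, id, Real.norm_eq_abs, abs_of_pos (by linarith)] at hv
    linarith
  have h2 : ∀ᶠ g : ℕ in atTop, 2 * Real.log (Real.log g) ≤ c * Real.log g :=
    (Real.tendsto_log_atTop.comp tendsto_natCast_atTop_atTop).eventually h1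
  obtain ⟨g₁, hg₁⟩ := eventually_atTop.1 h2
  refine ⟨c, hc0, max g₁ 16, fun g F hg hF b hb => ?_⟩
  have hg1 : g₁ ≤ g := (le_max_left _ _).trans hg
  have hg16 : 16 ≤ g := (le_max_right _ _).trans hg
  have hgR : (16 : ℝ) ≤ g := by exact_mod_cast hg16
  refine ⟨by omega, ?_⟩
  have he : Real.exp 1 ≤ Real.log g := by
    rw [Real.le_log_iff_exp_le (by linarith)]
    refine le_trans ?_ hgR
    have h3 : Real.exp 1 < 2.7182818286 := Real.exp_one_lt_d9
    calc Real.exp (Real.exp 1) ≤ Real.exp (11 / 4) := Real.exp_le_exp.2 (by linarith)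
      _ ≤ 16 := by
        have h4 : Real.exp (11 / 4) = Real.exp 1 ^ (11 / 4 : ℝ) := by
          rw [← Real.exp_mul, one_mul]
        have h5 : (Real.exp (11 / 4)) ^ 4 ≤ 16 ^ 4 := by
          rw [← Real.exp_nat_mul]
          have h6 : ((4 : ℕ) : ℝ) * (11 / 4) = (11 : ℕ) * 1 := by norm_num
          rw [h6, Real.exp_nat_mul]
          calc Real.exp 1 ^ 11 ≤ (2.7182818286 : ℝ) ^ 11 :=
                pow_le_pow_left₀ (Real.exp_pos _).le h3.le _
            _ ≤ 16 ^ 4 := by norm_num
        exact le_of_pow_le_pow_left₀ (by norm_num) (by norm_num) h5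
  have hlg : 0 < Real.log g := (Real.exp_pos 1).trans_le he
  have hllg : 1 ≤ Real.log (Real.log g) := by
    rw [Real.le_log_iff_exp_le hlg]; exact he
  have hllg0 : 0 < Real.log (Real.log g) := by linarith
  have hgb : (g : ℝ) ≤ b := by
    have : g ≤ b := by omega
    exact_mod_cast this
  have hlb : Real.log g ≤ Real.log b := Real.log_le_log (by linarith) hgb
  have hanti : Real.log (Real.log b) / Real.log b ≤ Real.log (Real.log g) / Real.log g :=
    Real.log_div_self_antitoneOn he (he.trans hlb) hlb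
  have hr0 : 0 ≤ Real.log (Real.log g) / Real.log g := by positivity
  have hbF : (b : ℝ) ≤ 2 * (c * g * Real.log g / Real.log (Real.log g)) := by
    have h3 : (b : ℝ) + 1 = F + 2 * g := by exact_mod_cast hb
    have h4 : 2 * (g : ℝ) ≤ c * g * Real.log g / Real.log (Real.log g) := by
      rw [le_div_iff₀ hllg0]
      have := mul_le_mul_of_nonneg_left (hg₁ g hg1) (show (0 : ℝ) ≤ g by positivity)
      nlinarith
    linarith
  have hb0 : (0 : ℝ) ≤ b := by positivity
  calc C * b * Real.log (Real.log b) / Real.log b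
      = C * b * (Real.log (Real.log b) / Real.log b) := by ring
    _ ≤ C * b * (Real.log (Real.log g) / Real.log g) :=
        mul_le_mul_of_nonneg_left hanti (by positivity)
    _ ≤ C * (2 * (c * g * Real.log g / Real.log (Real.log g))) *
          (Real.log (Real.log g) / Real.log g) :=
        mul_le_mul_of_nonneg_right (mul_le_mul_of_nonneg_left hbF hC.le) hr0
    _ = ε * g := by
        rw [hc]
        field_simp

end Pool.Agent.CPF
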