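import Pool.Agent.COPG.Game

set_option autoImplicit false

/-!
# Cops and robbers: leaves, and a cop guarding a geodesic of the territory
-/

namespace Pool.Agent.CPF

open Pool.Agent.COPG

variable {V : Type} {G : SimpleGraph V}

theorem CW_succ {C : Set V} {k : ℕ} (h : CW G C k) : CW G C (k + 1) := by
  intro c r hr
  rw [← cons_tail c]
  exact WinC.guard (G := G) (C := C) (C' := C) (f := fun _ => c 0)
    (fun _ _ _ _ _ => Or.inl rfl) (fun _ _ _ hs' _ => Or.inl hs') (h (Fin.tail c) r hr) hr

theorem CW_mono {C : Set V} {k k' : ℕ} (h : CW G C k) (hk : k ≤ k') : CW G C k' := by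
  induction k', hk using Nat.le_induction with
  | base => exact h
  | succ n _ ih => exact CW_succ ih

theorem CW_single (hG : G.Connected) (v : V) (k : ℕ) (hk : 1 ≤ k) : CW G {v} k := by
  obtain ⟨k, rfl⟩ : ∃ j, k = j + 1 := ⟨k - 1, by omega⟩
  exact CW.stand hG v fun r hr hrv => absurd (Set.mem_singleton_iff.1 hr) hrv

/-- A leaf of the territory may be removed. -/
theorem CW_leaf {C : Set V} {v u : V} (hu : u ∈ C) (huv : u ≠ v) (hadj : G.Adj u v)
    (hleaf : ∀ w ∈ C, G.Adj v w → w = u) {k : ℕ} (h : CW G (C \ {v}) k) : CW G C k := by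
  classical
  let ρ : V → V := fun r => if r = v then u else r
  have hρv : ρ v = u := by simp [ρ]
  have hρ : ∀ r, r ≠ v → ρ r = r := fun r hr => by simp [ρ, hr]
  have hmem : ∀ r ∈ C, ρ r ∈ C \ {v} := by
    intro r hr
    by_cases h1 : r = v
    · subst h1; rw [hρv]; exact ⟨hu, huv⟩
    · rw [hρ r h1]; exact ⟨hr, h1⟩
  have hstep : ∀ r ∈ C, ∀ r' ∈ C, r' = r ∨ G.Adj r r' → ρ r' = ρ r ∨ G.Adj (ρ r) (ρ r') := by
    intro r hr r' hr' hrr
    rcases hrr with rfl | hrr
    · exact Or.inl rfl
    · by_cases h1 : r = v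
      · subst h1
        have := hleaf r' hr' hrr
        subst this
        left
        rw [hρv, hρ _ huv]
      · by_cases h2 : r' = v
        · subst h2
          have := hleaf r hr hrr.symm
          subst this
          left
          rw [hρv, hρ _ huv]
        · rw [hρ r h1, hρ r' h2]; exact Or.inr hrr
  have key : ∀ (c : Fin k → V) (q : V), WinC G (C \ {v}) c q → ∀ r ∈ C, ρ r = q →
      WinC G C c r := by
    intro c q hw
    induction hw with
    | caught c q i h =>
      intro r hr hrq
      by_cases h1 : r = v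
      · subst h1
        rw [hρv] at hrq
        subst hrq
        refine WinC.mk fun r' hr' hrr => ?_
        rcases hrr with rfl | hrr
        · refine ⟨Function.update c i r', fun j => ?_, WinC.caught _ _ i (by simp)⟩
          by_cases hj : j = i
          · subst hj; right; rw [Function.update_self, h]; exact hadj
          · left; rw [Function.update_of_ne hj]
        · exact ⟨c, fun j => Or.inl rfl, WinC.caught _ _ i (by rw [h]; exact (hleaf r' hr' hrr).symm)⟩
      · rw [hρ r h1] at hrq
        subst hrq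
        exact WinC.caught _ _ i h
    | step c q f hf hw ih =>
      intro r hr hrq
      subst hrq
      refine WinC.mk fun r' hr' hrr => ?_
      exact ⟨f (ρ r'), hf _ (hmem r' hr') (hstep r hr r' hr' hrr),
        ih _ (hmem r' hr') (hstep r hr r' hr' hrr) r' hr' rfl⟩
  intro c r hr
  exact key c (ρ r) (h c _ (hmem r hr)) r hr rfl

/-- One cop guards a geodesic of the territory `C`. -/
theorem CW_geo (hG : G.Connected) (C : Finset V) (hC : (G.induce (C : Set V)).Connected) (L : ℕ)
    (q : ℕ → (C : Set V)) (hq : ∀ i < L, (G.induce (C : Set V)).Adj (q i) (q (i + 1)))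
    (hd : ∀ i ≤ L, (G.induce (C : Set V)).dist (q 0) (q i) = i) (k : ℕ)
    (h : ∀ C' : Finset V, C' ⊆ C → (∀ i ≤ L, (q i : V) ∉ C') →
      (G.induce (C' : Set V)).Connected →
      (∃ a ∈ C', ∃ b ∈ C, b ∉ C' ∧ G.Adj a b) → CW G (C' : Set V) k) :
    CW G (C : Set V) (k + 1) := by
  classical
  set H := G.induce (C : Set V) with hH
  refine CW.path hG L (fun i => (q i : V))
    (fun v => if h : v ∈ (C : Set V) then min (H.dist (q 0) ⟨v, h⟩) L else 0) ?_ ?_ ?_ ?_ ?_
  · intro i hi; exact hq i hi
  · intro x hx
    rw [dif_pos hx]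
    exact min_le_right _ _
  · intro x hx y hy hxy
    rw [dif_pos hx, dif_pos hy]
    have h1 : H.dist (⟨x, hx⟩ : (C : Set V)) ⟨y, hy⟩ = 1 := by
      rw [SimpleGraph.dist_eq_one_iff_adj]; exact hxy
    have h2 := hC.dist_triangle (u := q 0) (v := ⟨x, hx⟩) (w := ⟨y, hy⟩)
    omega
  · intro i hi
    rw [dif_pos (q i).2]
    have := hd i hi
    simp only [Subtype.coe_eta]
    omega
  · intro r hr hrp
    let T : V → V → Prop := fun a b => G.Adj a b ∧ b ∈ C ∧ ∀ i ≤ L, b ≠ q i
    let C' : Finset V := C.filter (fun w => Relation.ReflTransGen T r w)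
    have hrC' : r ∈ C' := by
      simp only [C', Finset.mem_filter]; exact ⟨hr, Relation.ReflTransGen.refl⟩
    have hsub : C' ⊆ C := Finset.filter_subset _ _
    have hout : ∀ i ≤ L, (q i : V) ∉ C' := by
      intro i hi hmem
      simp only [C', Finset.mem_filter] at hmem
      rcases Relation.ReflTransGen.cases_tail hmem.2 with h1 | ⟨b, _, h2⟩
      · exact hrp i hi h1.symm
      · exact h2.2.2 i hi rfl
    have hclosed : ∀ a ∈ C', ∀ b ∈ C, G.Adj a b → b ∈ C' ∨ ∃ i ≤ L, b = (q i : V) := by
      intro a ha b hb hab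
      by_cases h1 : ∃ i ≤ L, b = (q i : V)
      · exact Or.inr h1
      · left
        push Not at h1
        simp only [C', Finset.mem_filter] at ha ⊢
        exact ⟨hb, ha.2.tail ⟨hab, hb, h1⟩⟩
    have hconn : (G.induce (C' : Set V)).Connected := by
      have hreach : ∀ w, Relation.ReflTransGen T r w → ∃ hw : w ∈ C',
          (G.induce (C' : Set V)).Reachable ⟨r, hrC'⟩ ⟨w, hw⟩ := by
        intro w hw
        induction hw with
        | refl => exact ⟨hrC', SimpleGraph.Reachable.refl _⟩
        | @tail b c hb hbc ih =>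
          obtain ⟨hbC, hbr⟩ := ih
          have hcC : c ∈ C' := by
            simp only [C', Finset.mem_filter]
            exact ⟨hbc.2.1, hb.tail hbc⟩
          refine ⟨hcC, hbr.trans (SimpleGraph.Adj.reachable ?_)⟩
          exact hbc.1
      have : Nonempty ((C' : Set V)) := ⟨⟨r, hrC'⟩⟩
      refine SimpleGraph.Connected.mk ?_
      have h2 : ∀ w : (C' : Set V), (G.induce (C' : Set V)).Reachable ⟨r, hrC'⟩ w := by
        rintro ⟨w, hw⟩
        have hw' := hw
        simp only [C', Finset.coe_filter, Set.mem_ofPred_eq] at hw'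
        obtain ⟨_, h3⟩ := hreach w hw'.2
        exact h3
      intro a b
      exact (h2 a).symm.trans (h2 b)
    refine ⟨(C' : Set V), hrC', by exact_mod_cast hsub, ?_, h C' hsub hout hconn ?_⟩
    · intro x hx y hy hxy
      exact hclosed x hx y hy hxy
    · -- some edge leaves `C'`
      by_contra hno
      push Not at hno
      have hwalk : ∀ (a b : (C : Set V)), H.Walk a b → (a : V) ∈ C' → (b : V) ∈ C' := by
        intro a b w
        induction w with
        | nil => exact id
        | @cons a b c hab p ih =>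
          intro ha
          refine ih ?_
          by_contra hb
          exact hno a ha b b.2 hb hab
      obtain ⟨w⟩ := hC.preconnected ⟨r, hr⟩ (q 0)
      exact hout 0 (Nat.zero_le _) (hwalk _ _ w hrC')

end Pool.Agent.CPF
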