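import Mathlib

/-!
# Graphs with few branch vertices on geodesics from a root
-/

set_option autoImplicit false

namespace Pool.Agent.CPF

open Finset

variable {V : Type*} {H : SimpleGraph V}

/-- A vertex at distance `i + 1` has a neighbour at distance `i`. -/
theorem exists_pred (hc : H.Connected) {v w : V} {i : ℕ} (h : H.dist v w = i + 1) :
    ∃ u, H.dist v u = i ∧ H.Adj u w := by
  obtain ⟨p, hp⟩ := hc.exists_walk_length_eq_dist v w
  rw [h] at hp
  have hnil : ¬ p.Nil := by
    intro hn
    have := SimpleGraph.Walk.length_eq_zero_iff.2 hn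
    omega
  refine ⟨p.penultimate, ?_, p.adj_penultimate hnil⟩
  have h1 : H.dist v p.penultimate ≤ i := by
    have := SimpleGraph.dist_le p.dropLast
    rw [SimpleGraph.Walk.length_dropLast] at this
    omega
  have h2 : H.dist v w ≤ H.dist v p.penultimate + H.dist p.penultimate w :=
    hc.dist_triangle
  have h3 : H.dist p.penultimate w = 1 :=
    SimpleGraph.dist_eq_one_iff_adj.2 (p.adj_penultimate hnil)
  omega

theorem exists_par (hc : H.Connected) (x : V) :
    ∃ par : V → V, ∀ v, v ≠ x → H.dist x v = H.dist x (par v) + 1 ∧ H.Adj (par v) v := by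
  have h : ∀ v, ∃ u, v ≠ x → H.dist x v = H.dist x u + 1 ∧ H.Adj u v := by
    intro v
    by_cases hv : v = x
    · exact ⟨v, fun h => (h hv).elim⟩
    · have h0 : H.dist x v ≠ 0 := by
        rw [Ne, hc.dist_eq_zero_iff]
        exact fun h => hv h.symm
      obtain ⟨i, hi⟩ := Nat.exists_eq_succ_of_ne_zero h0
      obtain ⟨u, hu, huv⟩ := exists_pred hc hi
      exact ⟨u, fun _ => ⟨by omega, huv⟩⟩
  choose par hpar using h
  exact ⟨par, hpar⟩

/-- Let `H` be connected with degrees at most `D`, such that every geodesic from `x` has at most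
`m` vertices of degree at least three. Then `H` has at most `2 D ^ (m + 1) + 1` such vertices. -/
theorem branch_count [Fintype V] (hc : H.Connected) {D m : ℕ}
    (hD : ∀ v, (H.neighborSet v).ncard ≤ D) (x : V)
    (hm : ∀ (v : V) (q : ℕ → V), q 0 = x → (∀ i < H.dist x v, H.Adj (q i) (q (i + 1))) →
      q (H.dist x v) = v → ((range (H.dist x v + 1)).filter
        (fun i => 3 ≤ (H.neighborSet (q i)).ncard)).card ≤ m) :
    {v | 3 ≤ (H.neighborSet v).ncard}.ncard ≤ 2 * D ^ (m + 1) + 1 := by
  classical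
  obtain ⟨par, hpar⟩ := exists_par hc x
  -- degrees
  let b : V → ℕ := fun v => if 3 ≤ (H.neighborSet v).ncard then 1 else 0
  let cnt : V → ℕ := fun v => ∑ j ∈ range (H.dist x v), b (par^[j + 1] v)
  -- there is a branch vertex
  rcases Set.eq_empty_or_nonempty {v | 3 ≤ (H.neighborSet v).ncard} with he | ⟨v0, hv0⟩
  · rw [he, Set.ncard_empty]
    omega
  have hD3 : 3 ≤ D := le_trans hv0 (hD v0)
  -- ancestors
  have hit : ∀ (j : ℕ) (v : V), j ≤ H.dist x v → H.dist x (par^[j] v) = H.dist x v - j := by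
    intro j
    induction j with
    | zero => intro v _; simp
    | succ j ih =>
      intro v hv
      rw [Function.iterate_succ_apply']
      have h1 := ih v (by omega)
      have h2 : par^[j] v ≠ x := by
        intro h
        rw [h, SimpleGraph.dist_self] at h1
        omega
      have h3 := (hpar _ h2).1
      omega
  have hcnt : ∀ v, cnt v ≤ m := by
    intro v
    have h1 := hm v (fun i => par^[H.dist x v - i] v) (by
        have h2 := hit (H.dist x v) v le_rfl
        rw [Nat.sub_self] at h2
        simp only [Nat.sub_zero]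
        exact ((hc.dist_eq_zero_iff).1 h2).symm)
      (by
        intro i hi
        have h2 := hit (H.dist x v - (i + 1)) v (by omega)
        have h3 : par^[H.dist x v - (i + 1)] v ≠ x := by
          intro h
          rw [h, SimpleGraph.dist_self] at h2
          omega
        have h4 := (hpar _ h3).2
        rw [← Function.iterate_succ_apply' (f := par)] at h4
        have h5 : (H.dist x v - (i + 1)).succ = H.dist x v - i := by omega
        rw [h5] at h4
        exact h4)
      (by simp)
    refine le_trans ?_ h1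
    rw [card_filter]
    have h2 : ∑ i ∈ range (H.dist x v + 1),
        (if 3 ≤ (H.neighborSet (par^[H.dist x v - i] v)).ncard then 1 else 0) =
        ∑ j ∈ range (H.dist x v + 1), b (par^[j] v) := by
      rw [← sum_range_reflect (fun j => b (par^[j] v)) (H.dist x v + 1)]
      refine sum_congr rfl fun i hi => ?_
      rw [mem_range] at hi
      have h3 : H.dist x v + 1 - 1 - i = H.dist x v - i := by omega
      simp only [h3, b]
    rw [h2, sum_range_succ']
    exact Nat.le_add_right _ _
  have hrec : ∀ v, v ≠ x → cnt v = b (par v) + cnt (par v) := by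
    intro v hv
    have h1 := (hpar v hv).1
    simp only [cnt]
    rw [h1, sum_range_succ']
    rw [add_comm]
    congr 1
  -- weights
  let w : V → ℝ := fun v => ((D : ℝ)⁻¹) ^ cnt v
  have hDpos : (0 : ℝ) < D := by
    have : 0 < D := by omega
    exact_mod_cast this
  have hw0 : ∀ v, 0 < w v := fun v => pow_pos (inv_pos.2 hDpos) _
  have hw1 : ∀ v, w v ≤ 1 := fun v => pow_le_one₀ (inv_pos.2 hDpos).le
    (inv_le_one_of_one_le₀ (by exact_mod_cast (by omega : 1 ≤ D)))
  have hwm : ∀ v, ((D : ℝ)⁻¹) ^ m ≤ w v := fun v =>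
    pow_le_pow_of_le_one (inv_pos.2 hDpos).le
      (inv_le_one_of_one_le₀ (by exact_mod_cast (by omega : 1 ≤ D))) (hcnt v)
  have hwrec : ∀ v, v ≠ x → w v = ((D : ℝ)⁻¹) ^ b (par v) * w (par v) := by
    intro v hv
    simp only [w]
    rw [hrec v hv, pow_add]
  -- children
  let ch : V → Finset V := fun v => univ.filter fun c => c ≠ x ∧ par c = v
  have hch : ∀ v, v ≠ x → (ch v).card + 1 ≤ (H.neighborSet v).ncard := by
    intro v hv
    have h1 : par v ∉ ch v := by
      simp only [ch, mem_filter, mem_univ, true_and, not_and]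
      intro h2 h3
      have h4 := (hpar v hv).1
      have h5 := (hpar (par v) h2).1
      rw [h3] at h5
      omega
    rw [← card_insert_of_notMem h1, ← Set.ncard_coe_finset]
    refine Set.ncard_le_ncard ?_ (Set.toFinite _)
    intro c hcc
    rw [mem_coe, mem_insert] at hcc
    rcases hcc with rfl | hcc
    · exact (hpar v hv).2.symm
    · simp only [ch, mem_filter, mem_univ, true_and] at hcc
      have := (hpar c hcc.1).2
      rw [hcc.2] at this
      exact this
  have hchx : (ch x).card ≤ (H.neighborSet x).ncard := by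
    rw [← Set.ncard_coe_finset]
    refine Set.ncard_le_ncard ?_ (Set.toFinite _)
    intro c hcc
    simp only [ch, coe_filter, mem_univ, true_and, Set.mem_ofPred_eq] at hcc
    have := (hpar c hcc.1).2
    rw [hcc.2] at this
    exact this
  have hsumch : ∀ v, ∑ c ∈ ch v, w c = (ch v).card * (((D : ℝ)⁻¹) ^ b v * w v) := by
    intro v
    rw [← nsmul_eq_mul, ← sum_const]
    refine sum_congr rfl fun c hcc => ?_
    simp only [ch, mem_filter, mem_univ, true_and] at hcc
    rw [hwrec c hcc.1, hcc.2]
  -- the total flow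
  have htot : ∑ v ∈ univ.erase x, (w v - ∑ c ∈ ch v, w c) = ∑ c ∈ ch x, w c := by
    have h1 : ∑ v, ∑ c ∈ ch v, w c = ∑ c ∈ univ.erase x, w c := by
      have h2 := sum_fiberwise (univ.erase x) par w
      rw [← h2]
      refine sum_congr rfl fun v _ => ?_
      refine sum_congr ?_ fun _ _ => rfl
      ext c
      simp [ch]
    have h3 : ∑ v, ∑ c ∈ ch v, w c =
        ∑ c ∈ ch x, w c + ∑ v ∈ univ.erase x, ∑ c ∈ ch v, w c :=
      (add_sum_erase univ _ (mem_univ x)).symm
    rw [sum_sub_distrib]
    linarith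
  have hterm : ∀ v ∈ univ.erase x, (b v : ℝ) * w v / D ≤ w v - ∑ c ∈ ch v, w c := by
    intro v hv
    rw [mem_erase] at hv
    have h1 := hch v hv.1
    rw [hsumch]
    by_cases hb : 3 ≤ (H.neighborSet v).ncard
    · have h2 : b v = 1 := by simp only [b]; rw [if_pos hb]
      rw [h2]
      have h3 : ((ch v).card : ℝ) ≤ D - 1 := by
        have h4 : (ch v).card + 1 ≤ D := h1.trans (hD v)
        have h5 : ((ch v).card : ℝ) + 1 ≤ D := by exact_mod_cast h4
        linarith
      have h4 : ((ch v).card : ℝ) * (((D : ℝ)⁻¹) ^ 1 * w v) ≤ (D - 1) * (((D : ℝ)⁻¹) ^ 1 * w v) :=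
        mul_le_mul_of_nonneg_right h3 (mul_nonneg (pow_nonneg (inv_pos.2 hDpos).le _) (hw0 v).le)
      have h5 : ((D : ℝ) - 1) * (((D : ℝ)⁻¹) ^ 1 * w v) = w v - w v / D := by
        field_simp
      rw [h5] at h4
      push_cast
      rw [one_mul]
      linarith
    · have h2 : b v = 0 := by simp only [b]; rw [if_neg hb]
      rw [h2]
      have h3 : ((ch v).card : ℝ) ≤ 1 := by
        have : (ch v).card ≤ 1 := by omega
        exact_mod_cast this
      have h4 : ((ch v).card : ℝ) * (((D : ℝ)⁻¹) ^ 0 * w v) ≤ 1 * (((D : ℝ)⁻¹) ^ 0 * w v) :=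
        mul_le_mul_of_nonneg_right h3 (by rw [pow_zero, one_mul]; exact (hw0 v).le)
      rw [pow_zero, one_mul, one_mul] at h4
      simp only [Nat.cast_zero, zero_mul, zero_div, pow_zero, one_mul]
      linarith
  have hroot : ∑ c ∈ ch x, w c ≤ 2 := by
    rw [hsumch]
    by_cases hb : 3 ≤ (H.neighborSet x).ncard
    · have h2 : b x = 1 := by simp only [b]; rw [if_pos hb]
      rw [h2]
      have h3 : ((ch x).card : ℝ) ≤ D := by exact_mod_cast hchx.trans (hD x)
      calc ((ch x).card : ℝ) * (((D : ℝ)⁻¹) ^ 1 * w x) ≤ D * (((D : ℝ)⁻¹) ^ 1 * w x) :=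
            mul_le_mul_of_nonneg_right h3
              (mul_nonneg (pow_nonneg (inv_pos.2 hDpos).le _) (hw0 x).le)
        _ = w x := by field_simp
        _ ≤ 1 := hw1 x
        _ ≤ 2 := by norm_num
    · have h2 : b x = 0 := by simp only [b]; rw [if_neg hb]
      rw [h2]
      have h3 : ((ch x).card : ℝ) ≤ 2 := by
        have : (ch x).card ≤ 2 := by omega
        exact_mod_cast this
      rw [pow_zero, one_mul]
      calc ((ch x).card : ℝ) * w x ≤ 2 * 1 := mul_le_mul h3 (hw1 x) (hw0 x).le (by norm_num)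
        _ = 2 := by norm_num
  -- count
  have hsum : ∑ v ∈ univ.erase x, (b v : ℝ) * w v / D ≤ 2 :=
    (sum_le_sum hterm).trans (htot.trans_le hroot)
  have hlow : ∀ v ∈ univ.erase x, (b v : ℝ) * (((D : ℝ)⁻¹) ^ (m + 1)) ≤ (b v : ℝ) * w v / D := by
    intro v _
    rw [mul_div_assoc]
    refine mul_le_mul_of_nonneg_left ?_ (Nat.cast_nonneg _)
    rw [pow_succ, div_eq_mul_inv]
    exact mul_le_mul_of_nonneg_right (hwm v) (inv_pos.2 hDpos).le
  have h1 : (∑ v ∈ univ.erase x, (b v : ℝ)) * (((D : ℝ)⁻¹) ^ (m + 1)) ≤ 2 := by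
    rw [sum_mul]
    exact (sum_le_sum hlow).trans hsum
  have h2 : (∑ v ∈ univ.erase x, (b v : ℝ)) ≤ 2 * D ^ (m + 1) := by
    rw [inv_pow, ← div_eq_mul_inv, div_le_iff₀ (pow_pos hDpos _)] at h1
    exact h1
  have h3 : (∑ v ∈ univ.erase x, b v) ≤ 2 * D ^ (m + 1) := by exact_mod_cast h2
  have h4 : {v | 3 ≤ (H.neighborSet v).ncard}.ncard = ∑ v, b v := by
    rw [Set.ncard_eq_toFinset_card', ← card_filter]
    congr 1
    ext v
    simp
  rw [h4, ← add_sum_erase univ b (mem_univ x)]
  have h5 : b x ≤ 1 := by simp only [b]; split_ifs <;> omega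
  omega

end Pool.Agent.CPF
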